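import Pool.Agent.helper12.PFS.Spec

/-! # Row pfs:FA3: families of starters of vector spaces -/

set_option autoImplicit false

namespace Pool.Agent.PFS

theorem FA3_cj {X Y : Type} (E : X ≃ Y) (τ : X → X) (T : X ≃ X) (T' : Y ≃ Y)
    (hT : ∀ x, T' (E x) = E (T x)) (h : Gd τ T) : Gd (fun y => E (τ (E.symm y))) T' := by
  have h1 : ∀ x, rho (fun y => E (τ (E.symm y))) T' (E x) = E (rho τ T x) := by
    intro x
    have h2 : T'.symm (E x) = E (T.symm x) := by
      rw [Equiv.symm_apply_eq, hT, Equiv.apply_symm_apply]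
    simp only [rho, h2, Equiv.symm_apply_apply, hT]
  have h3 : ∀ (n : ℕ) (x : X), (rho (fun y => E (τ (E.symm y))) T')^[n] (E x)
      = E ((rho τ T)^[n] x) := by
    intro n
    induction n with
    | zero => intro x; rfl
    | succ n ih =>
      intro x
      rw [Function.iterate_succ_apply, Function.iterate_succ_apply, h1, ih]
  intro x y
  obtain ⟨n, hn⟩ := h (E.symm x) (E.symm y)
  refine ⟨n, ?_⟩
  have h4 := h3 n (E.symm x)
  rw [hn, Equiv.apply_symm_apply, Equiv.apply_symm_apply] at h4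
  exact h4

theorem FA3_tr (p : ℕ) [Fact p.Prime] (V V' : Type) [AddCommGroup V] [Module (ZMod p) V]
    [AddCommGroup V'] [Module (ZMod p) V'] [Finite V'] (e : V ≃ₗ[ZMod p] V') (k : ℕ)
    (h : Fam p V k) : Fam p V' k := by
  obtain ⟨Ω, hf, hn, σ, hσ, hcard⟩ := h
  refine ⟨Ω, hf, hn, fun ω v => e (σ ω (e.symm v)), fun ω => ?_, fun a => ?_⟩
  · obtain ⟨⟨h1, h2⟩, h3⟩ := hσ ω
    refine ⟨⟨fun x => by simp [h1], fun x => ?_⟩, fun h hh => ?_⟩
    · rw [← LinearEquiv.eq_symm_apply, h2, ← map_zero e.symm]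
      exact e.symm.injective.eq_iff
    · obtain ⟨x, hx, hx2⟩ := h3 (e.symm h) (by simpa using hh)
      refine ⟨e x, by simpa using hx, ?_⟩
      change e x - e (σ ω (e.symm (e x))) = h
      rw [LinearEquiv.symm_apply_apply, ← map_sub, hx2, LinearEquiv.apply_symm_apply]
  · refine (hcard a).trans ?_
    refine Nat.card_le_card_of_injective
      (fun q : {q : Ω × V // Gd (σ q.1) (af a q.2)} =>
        (⟨(q.1.1, e q.1.2), ?_⟩ :
          {q : Ω × V' // Gd (fun v => e (σ q.1 (e.symm v))) (af a q.2)})) ?_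
    · refine FA3_cj e.toEquiv (σ q.1.1) (af a q.1.2) (af a (e q.1.2)) (fun x => ?_) q.2
      change a • e x + e q.1.2 = e (a • x + q.1.2)
      rw [map_add]
      congr 1
      exact (map_smul e (a : ZMod p) x).symm
    · rintro ⟨⟨ω, z⟩, h1⟩ ⟨⟨ω', z'⟩, h2⟩ h
      simp only [Subtype.mk.injEq, Prod.mk.injEq, EmbeddingLike.apply_eq_iff_eq] at h
      apply Subtype.ext
      exact Prod.ext h.1 h.2

theorem FA3_two (p : ℕ) [Fact p.Prime] (hp : p ≠ 2) : (2 : ZMod p) ≠ 0 := by
  haveI : NeZero (2 : ZMod p) := by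
    refine ⟨fun h => ?_⟩
    have h1 : ((2 : ℕ) : ZMod p) = 0 := by exact_mod_cast h
    rw [ZMod.natCast_eq_zero_iff] at h1
    have h2 := (Nat.prime_dvd_prime_iff_eq (Fact.out : p.Prime) Nat.prime_two).1 h1
    exact hp h2
  exact two_ne_zero

theorem FA3_zero (hNEG : NEG_stmt) (p : ℕ) [Fact p.Prime] (hp : p ≠ 2) : Fam p (ZMod p) 0 := by
  have h2 := FA3_two p hp
  refine ⟨Unit, inferInstance, inferInstance, fun _ u => -u, fun _ => ⟨⟨fun x => neg_neg x,
    fun x => ?_⟩, fun h hh => ?_⟩, fun a => ?_⟩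
  · constructor
    · intro h
      have h3 : (2 : ZMod p) * x = 0 := by linear_combination -h
      rcases mul_eq_zero.1 h3 with h4 | h4
      · exact absurd h4 h2
      · exact h4
    · rintro rfl
      simp
  · refine ⟨h * 2⁻¹, mul_ne_zero hh (inv_ne_zero h2), ?_⟩
    have h3 : (2 : ZMod p) * 2⁻¹ = 1 := mul_inv_cancel₀ h2
    linear_combination h * h3
  · rw [pow_zero, mul_one, Nat.card_unique, mul_one]
    have h3 : Nat.card (ZMod p)ˣ = p - 1 := by
      rw [Nat.card_eq_fintype_card, ZMod.card_units]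
    rw [← h3]
    refine Nat.card_le_card_of_injective
      (fun u : (ZMod p)ˣ => (⟨((), (u : ZMod p)), ?_⟩ :
        {q : Unit × ZMod p // Gd (fun u : ZMod p => -u) (af a q.2)})) ?_
    · exact hNEG p a u hp u.ne_zero
    · intro u v h
      simp only [Subtype.mk.injEq, Prod.mk.injEq, true_and] at h
      exact Units.ext h

theorem FA3 (h1 : FA1_stmt) (h2 : NEG_stmt) : FA3_stmt := by
  intro p _ V _ _ _ k hp
  induction k generalizing V with
  | zero =>
    intro hV
    have hfr : Module.finrank (ZMod p) V = 1 := by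
      have h3 := Module.natCard_eq_pow_finrank (K := ZMod p) (V := V)
      rw [hV, Nat.card_zmod] at h3
      exact (Nat.pow_right_injective (Fact.out : p.Prime).two_le h3).symm
    have e : ZMod p ≃ₗ[ZMod p] V := LinearEquiv.ofFinrankEq _ _ (by
      rw [Module.finrank_self, hfr])
    exact FA3_tr p _ _ e 0 (FA3_zero h2 p hp)
  | succ k ih =>
    intro hV
    have hfr : Module.finrank (ZMod p) V = k + 1 + 1 := by
      have h3 := Module.natCard_eq_pow_finrank (K := ZMod p) (V := V)
      rw [hV, Nat.card_zmod] at h3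
      exact (Nat.pow_right_injective (Fact.out : p.Prime).two_le h3).symm
    have hc : Nat.card (Fin (k + 1) → ZMod p) = p ^ (k + 1) := by
      rw [Nat.card_fun, Nat.card_zmod, Nat.card_fin]
    have h4 := ih (Fin (k + 1) → ZMod p) hc
    have h5 := h1 p (Fin (k + 1) → ZMod p) k hp (by
      rw [hc]
      exact Nat.one_lt_pow (by omega) (Fact.out : p.Prime).one_lt) h4
    have e : ((Fin (k + 1) → ZMod p) × ZMod p) ≃ₗ[ZMod p] V := LinearEquiv.ofFinrankEq _ _ (by
      rw [Module.finrank_prod, Module.finrank_fin_fun, Module.finrank_self, hfr])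
    exact FA3_tr p _ _ e _ h5

end Pool.Agent.PFS
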